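import Pool.Agent.W229.HD.Stm

/-!
Project HD (owner helper229), part LIM: the limit of many modes.
-/

set_option autoImplicit false

open Set Filter Topology

namespace Pool.Agent.W338.HD

open Pool.Agent.W229.HD

noncomputable section

/-! ## vectors -/

theorem nm_nonneg (k : K3) : 0 ≤ nm k := Real.sqrt_nonneg _

theorem nm_neg (k : K3) : nm (-k) = nm k := by
  unfold nm
  congr 1
  refine Finset.sum_congr rfl fun j _ => ?_
  simp

theorem norm_kc (k : K3) : ‖kc k‖ = nm k := by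
  rw [EuclideanSpace.norm_eq]
  unfold nm kc
  congr 1
  refine Finset.sum_congr rfl fun j _ => ?_
  simp

theorem kc_add (k l : K3) : kc (k + l) = kc k + kc l := by
  ext j
  simp [kc]

theorem nm_add (k l : K3) : nm (k + l) ≤ nm k + nm l := by
  rw [← norm_kc, ← norm_kc, ← norm_kc, kc_add]
  exact norm_add_le _ _

theorem norm_cj (v : E3) : ‖cj v‖ = ‖v‖ := by
  rw [EuclideanSpace.norm_eq, EuclideanSpace.norm_eq]
  congr 1
  refine Finset.sum_congr rfl fun j _ => ?_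
  simp [cj]

theorem norm_dt (v w : E3) : ‖dt v w‖ ≤ ‖v‖ * ‖w‖ := by
  have h : dt v w = inner ℂ (cj v) w := by
    rw [PiLp.inner_apply]
    unfold dt cj
    refine Finset.sum_congr rfl fun j _ => ?_
    simp [mul_comm]
  rw [h, ← norm_cj v]
  exact norm_inner_le_norm _ _

theorem dt_add_left (u v w : E3) : dt (u + v) w = dt u w + dt v w := by
  unfold dt
  rw [← Finset.sum_add_distrib]
  refine Finset.sum_congr rfl fun j _ => ?_
  rw [PiLp.add_apply, add_mul]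

theorem dt_sub_left (u v w : E3) : dt (u - v) w = dt u w - dt v w := by
  unfold dt
  rw [← Finset.sum_sub_distrib]
  refine Finset.sum_congr rfl fun j _ => ?_
  rw [PiLp.sub_apply, sub_mul]

theorem cj_sub (u v : E3) : cj (u - v) = cj u - cj v := by
  ext j
  simp [cj]

/-- the weight -/
def wt (k : K3) : ℝ := 1 + nm k

theorem one_le_wt (k : K3) : 1 ≤ wt k := by
  have := nm_nonneg k
  unfold wt
  linarith

theorem wt_pos (k : K3) : 0 < wt k := lt_of_lt_of_le one_pos (one_le_wt k)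

theorem wt_add (k l : K3) : wt (k + l) ≤ wt k * wt l := by
  have h1 := nm_nonneg k
  have h2 := nm_nonneg l
  have h3 := nm_add k l
  unfold wt
  nlinarith [mul_nonneg h1 h2]

theorem nm_rpow_le (α : ℝ) : ∃ j : ℕ, ∀ k : K3, nm k ^ (2 * α) ≤ wt k ^ j := by
  obtain ⟨j, hj⟩ := exists_nat_ge (2 * α)
  refine ⟨j, fun k => ?_⟩
  by_cases hk : 1 ≤ nm k
  · calc nm k ^ (2 * α) ≤ nm k ^ (j : ℝ) := Real.rpow_le_rpow_of_exponent_le hk hj
      _ = nm k ^ j := Real.rpow_natCast _ _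
      _ ≤ wt k ^ j := by
        refine pow_le_pow_left₀ (nm_nonneg k) ?_ j
        unfold wt
        linarith
  · have hk0 : nm k = 0 := by
      unfold nm
      rw [Real.sqrt_eq_zero']
      by_contra hn
      push Not at hn
      apply hk
      unfold nm
      rw [Real.one_le_sqrt]
      have h1 : (∑ j, (k j : ℝ) ^ 2) = ((∑ j, (k j) ^ 2 : ℤ) : ℝ) := by push_cast; rfl
      rw [h1] at hn ⊢
      exact_mod_cast Int.add_one_le_iff.2 (by exact_mod_cast hn : (0 : ℤ) < ∑ j, (k j) ^ 2)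
    have h1 : (1 : ℝ) ≤ wt k ^ j := one_le_pow₀ (one_le_wt k)
    rw [hk0]
    by_cases h0 : 2 * α = 0
    · rw [h0, Real.rpow_zero]; exact h1
    · rw [Real.zero_rpow h0]; linarith

/-! ## the nonlinear term -/

/-- the terms of the nonlinear term -/
def tm (x y : K3 → E3) (k l : K3) : E3 := (Complex.I * dt (x l) (kc (k - l))) • y (k - l)

theorem tm_le {x y : K3 → E3} {A B : ℝ} {m : ℕ} (hx : ∀ l, wt l ^ (m + 4) * ‖x l‖ ≤ A)
    (hy : ∀ l, wt l ^ (m + 1) * ‖y l‖ ≤ B) (k l : K3) :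
    wt k ^ m * ‖tm x y k l‖ ≤ A * B * (wt l ^ 4)⁻¹ := by
  have hl := wt_pos l
  have hkl := wt_pos (k - l)
  have h1 : ‖tm x y k l‖ ≤ ‖x l‖ * wt (k - l) * ‖y (k - l)‖ := by
    unfold tm
    rw [norm_smul, norm_mul, Complex.norm_I, one_mul]
    refine mul_le_mul_of_nonneg_right ((norm_dt _ _).trans ?_) (norm_nonneg _)
    refine mul_le_mul_of_nonneg_left ?_ (norm_nonneg _)
    rw [norm_kc]
    unfold wt
    linarith
  have h2 : wt k ^ m ≤ wt l ^ m * wt (k - l) ^ m := by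
    rw [← mul_pow]
    refine pow_le_pow_left₀ (wt_pos k).le ?_ m
    have := wt_add l (k - l)
    rwa [add_sub_cancel] at this
  have hB : 0 ≤ B := (mul_nonneg (pow_nonneg (wt_pos 0).le _) (norm_nonneg _)).trans (hy 0)
  calc wt k ^ m * ‖tm x y k l‖ ≤ (wt l ^ m * wt (k - l) ^ m) *
      (‖x l‖ * wt (k - l) * ‖y (k - l)‖) := by gcongr
    _ = (wt l ^ (m + 4) * ‖x l‖) * (wt (k - l) ^ (m + 1) * ‖y (k - l)‖) * (wt l ^ 4)⁻¹ := by
        field_simp
        ring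
    _ ≤ A * B * (wt l ^ 4)⁻¹ := by
        gcongr
        · exact (mul_nonneg (pow_nonneg (wt_pos 0).le _) (norm_nonneg _)).trans (hx 0)
        · exact hx l
        · exact hy (k - l)

theorem tm_summable (hs : Summable fun k : K3 => ((1 + nm k) ^ 4)⁻¹)
    {x y : K3 → E3} {A B : ℝ} (hx : ∀ l, wt l ^ 4 * ‖x l‖ ≤ A)
    (hy : ∀ l, wt l ^ 1 * ‖y l‖ ≤ B) (k : K3) : Summable (tm x y k) := by
  refine Summable.of_norm_bounded (hs.mul_left (A * B)) fun l => ?_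
  have := tm_le (m := 0) hx hy k l
  rwa [pow_zero, one_mul] at this

theorem tsum_tm_le (hs : Summable fun k : K3 => ((1 + nm k) ^ 4)⁻¹)
    {x y : K3 → E3} {A B : ℝ} {m : ℕ} (hx : ∀ l, wt l ^ (m + 4) * ‖x l‖ ≤ A)
    (hy : ∀ l, wt l ^ (m + 1) * ‖y l‖ ≤ B) (k : K3) :
    wt k ^ m * ‖∑' l, tm x y k l‖ ≤ A * B * ∑' l : K3, ((1 + nm l) ^ 4)⁻¹ := by
  have hk := wt_pos k
  have h1 : ‖∑' l, tm x y k l‖ ≤ (A * B * (wt k ^ m)⁻¹) * ∑' l : K3, ((1 + nm l) ^ 4)⁻¹ := by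
    refine tsum_of_norm_bounded (hs.hasSum.mul_left _) fun l => ?_
    have := tm_le hx hy k l
    have h2 : ‖tm x y k l‖ = (wt k ^ m)⁻¹ * (wt k ^ m * ‖tm x y k l‖) := by
      field_simp
    rw [h2]
    calc _ ≤ (wt k ^ m)⁻¹ * (A * B * (wt l ^ 4)⁻¹) := by gcongr
      _ = _ := by unfold wt; ring
  calc _ ≤ wt k ^ m * ((A * B * (wt k ^ m)⁻¹) * ∑' l : K3, ((1 + nm l) ^ 4)⁻¹) := by gcongr
    _ = _ := by field_simp

theorem nl_eq (x : K3 → E3) (k : K3) : nl x k = ∑' l, tm x x k l := rfl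

theorem nl_sub (hs : Summable fun k : K3 => ((1 + nm k) ^ 4)⁻¹)
    {x y : K3 → E3} {A D : ℝ} (hx : ∀ l, wt l ^ 4 * ‖x l‖ ≤ A)
    (hy : ∀ l, wt l ^ 4 * ‖y l‖ ≤ A) (hxy : ∀ l, wt l ^ 4 * ‖x l - y l‖ ≤ D) (k : K3) :
    ‖nl x k - nl y k‖ ≤ 2 * (A * D) * ∑' l : K3, ((1 + nm l) ^ 4)⁻¹ := by
  have h41 : ∀ {z : K3 → E3} {E : ℝ}, (∀ l, wt l ^ 4 * ‖z l‖ ≤ E) →
      ∀ l, wt l ^ 1 * ‖z l‖ ≤ E := fun h l => (mul_le_mul_of_nonneg_right
        (pow_le_pow_right₀ (one_le_wt l) (by norm_num)) (norm_nonneg _)).trans (h l)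
  have e : nl x k - nl y k = ∑' l, tm (fun l => x l - y l) x k l +
      ∑' l, tm y (fun l => x l - y l) k l := by
    rw [nl_eq, nl_eq, ← (tm_summable hs hx (h41 hx) k).tsum_sub (tm_summable hs hy (h41 hy) k),
      ← (tm_summable hs hxy (h41 hx) k).tsum_add (tm_summable hs hy (h41 hxy) k)]
    refine tsum_congr fun l => ?_
    unfold tm
    rw [dt_sub_left, smul_sub, mul_sub, sub_smul]
    abel
  have h1 := tsum_tm_le (m := 0) hs hxy (h41 hx) k
  have h2 := tsum_tm_le (m := 0) hs hy (h41 hxy) k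
  rw [pow_zero, one_mul] at h1 h2
  rw [e]
  refine (norm_add_le _ _).trans ((add_le_add h1 h2).trans (le_of_eq ?_))
  ring

/-! ## the right hand side -/

/-- the right hand side of the equations -/
def rh (α ν : ℝ) (Λ : Bool → Set K3) (x : K3 → E3) (k : K3) : E3 :=
  -(((ν * nm k ^ (2 * α) : ℝ) : ℂ) • x k) - dec Λ k (nl x k)

theorem dec_sub (hD : S_DEC) {Λ : Bool → Set K3} (hΛ : Modes Λ) (k : K3) (v w : E3) :
    dec Λ k (v - w) = dec Λ k v - dec Λ k w := by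
  have h1 := (hD Λ hΛ k v (-w) 1 true).1
  have h2 := (hD Λ hΛ k w w (-1) true).2.1
  rw [neg_one_smul, neg_one_smul] at h2
  rw [sub_eq_add_neg, h1, h2, sub_eq_add_neg]

theorem dec_le (hD : S_DEC) {Λ : Bool → Set K3} (hΛ : Modes Λ) (k : K3) (v : E3) :
    ‖dec Λ k v‖ ≤ ‖v‖ := (hD Λ hΛ k v v 1 true).2.2.2.2.2.2.1

theorem dec_cont (hD : S_DEC) {Λ : Bool → Set K3} (hΛ : Modes Λ) (k : K3) :
    Continuous (dec Λ k) := by
  rw [Metric.continuous_iff]
  intro b ε hε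
  refine ⟨ε, hε, fun a ha => ?_⟩
  rw [dist_eq_norm] at ha ⊢
  rw [← dec_sub hD hΛ]
  exact (dec_le hD hΛ k _).trans_lt ha

theorem rh_le (hD : S_DEC) (hs : Summable fun k : K3 => ((1 + nm k) ^ 4)⁻¹) (α ν : ℝ)
    (C : ℕ → ℝ) (m : ℕ) : ∃ D : ℝ, 0 ≤ D ∧ ∀ Λ : Bool → Set K3, Modes Λ → ∀ x : K3 → E3,
      (∀ m l, wt l ^ m * ‖x l‖ ≤ C m) → ∀ k, wt k ^ m * ‖rh α ν Λ x k‖ ≤ D := by
  obtain ⟨j, hj⟩ := nm_rpow_le α
  refine ⟨|ν| * |C (m + j)| + |C (m + 4) * C (m + 1) * ∑' l : K3, ((1 + nm l) ^ 4)⁻¹|,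
    by positivity, fun Λ hΛ x hx k => ?_⟩
  have hk := wt_pos k
  have h1 : wt k ^ m * ‖((ν * nm k ^ (2 * α) : ℝ) : ℂ) • x k‖ ≤ |ν| * |C (m + j)| := by
    rw [norm_smul, Complex.norm_real, norm_mul, Real.norm_eq_abs, Real.norm_eq_abs,
      abs_of_nonneg (Real.rpow_nonneg (nm_nonneg k) _)]
    calc wt k ^ m * (|ν| * nm k ^ (2 * α) * ‖x k‖) ≤ wt k ^ m * (|ν| * wt k ^ j * ‖x k‖) := by
          gcongr
          exact hj k
      _ = |ν| * (wt k ^ (m + j) * ‖x k‖) := by ring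
      _ ≤ |ν| * |C (m + j)| := by
          gcongr
          exact (hx _ _).trans (le_abs_self _)
  have h2 : wt k ^ m * ‖dec Λ k (nl x k)‖ ≤
      |C (m + 4) * C (m + 1) * ∑' l : K3, ((1 + nm l) ^ 4)⁻¹| := by
    calc _ ≤ wt k ^ m * ‖nl x k‖ := by
          gcongr
          exact dec_le hD hΛ k _
      _ ≤ _ := (tsum_tm_le hs (hx _) (hx _) k).trans (le_abs_self _)
  unfold rh
  calc _ ≤ wt k ^ m * (‖((ν * nm k ^ (2 * α) : ℝ) : ℂ) • x k‖ + ‖dec Λ k (nl x k)‖) := by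
        gcongr
        refine (norm_sub_le _ _).trans ?_
        rw [norm_neg]
    _ ≤ _ := by
        rw [mul_add]
        exact add_le_add h1 h2

theorem rh_sub (hD : S_DEC) (hs : Summable fun k : K3 => ((1 + nm k) ^ 4)⁻¹) (α ν : ℝ)
    (k : K3) : ∃ G : ℝ, 0 ≤ G ∧ ∀ Λ : Bool → Set K3, Modes Λ → ∀ (A D : ℝ) (x y : K3 → E3),
      (∀ l, wt l ^ 4 * ‖x l‖ ≤ A) → (∀ l, wt l ^ 4 * ‖y l‖ ≤ A) →
      (∀ l, wt l ^ 4 * ‖x l - y l‖ ≤ D) →
      ‖rh α ν Λ x k - rh α ν Λ y k‖ ≤ G * ((1 + A) * D) := by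
  refine ⟨|ν| * nm k ^ (2 * α) + 2 * ∑' l : K3, ((1 + nm l) ^ 4)⁻¹, ?_,
    fun Λ hΛ A D x y hx hy hxy => ?_⟩
  · have h1 : 0 ≤ ∑' l : K3, ((1 + nm l) ^ 4)⁻¹ :=
      tsum_nonneg fun l => by have := wt_pos l; unfold wt at this; positivity
    have h2 := Real.rpow_nonneg (nm_nonneg k) (2 * α)
    positivity
  have hA : 0 ≤ A := (mul_nonneg (pow_nonneg (wt_pos 0).le _) (norm_nonneg _)).trans (hx 0)
  have hD0 : 0 ≤ D := (mul_nonneg (pow_nonneg (wt_pos 0).le _) (norm_nonneg _)).trans (hxy 0)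
  have h1 : ‖x k - y k‖ ≤ D := by
    refine le_trans ?_ (hxy k)
    exact le_mul_of_one_le_left (norm_nonneg _) (one_le_pow₀ (one_le_wt k))
  have h2 := nl_sub hs hx hy hxy k
  have e : rh α ν Λ x k - rh α ν Λ y k = -(((ν * nm k ^ (2 * α) : ℝ) : ℂ) • (x k - y k)) -
      dec Λ k (nl x k - nl y k) := by
    unfold rh
    rw [dec_sub hD hΛ, smul_sub]
    abel
  have h3 := Real.rpow_nonneg (nm_nonneg k) (2 * α)
  have h4 : 0 ≤ ∑' l : K3, ((1 + nm l) ^ 4)⁻¹ :=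
      tsum_nonneg fun l => by have := wt_pos l; unfold wt at this; positivity
  rw [e]
  calc _ ≤ ‖((ν * nm k ^ (2 * α) : ℝ) : ℂ) • (x k - y k)‖ + ‖dec Λ k (nl x k - nl y k)‖ := by
        refine (norm_sub_le _ _).trans ?_
        rw [norm_neg]
    _ ≤ |ν| * nm k ^ (2 * α) * D + 2 * (A * D) * ∑' l : K3, ((1 + nm l) ^ 4)⁻¹ := by
        refine add_le_add ?_ ((dec_le hD hΛ k _).trans h2)
        rw [norm_smul, Complex.norm_real, norm_mul, Real.norm_eq_abs, Real.norm_eq_abs,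
          abs_of_nonneg h3]
        gcongr
    _ ≤ _ := by nlinarith [mul_nonneg (mul_nonneg (abs_nonneg ν) h3) (mul_nonneg hA hD0),
                  mul_nonneg h4 hD0]

/-! ## Taylor estimates -/

theorem lip {f g : ℝ → E3} {D : ℝ} (hf : ∀ t, 0 ≤ t → HasDerivWithinAt f (g t) (Ici 0) t)
    (hg : ∀ t, 0 ≤ t → ‖g t‖ ≤ D) {s t : ℝ} (hs : 0 ≤ s) (ht : 0 ≤ t) :
    ‖f t - f s‖ ≤ D * |t - s| := by
  have := Convex.norm_image_sub_le_of_norm_hasDerivWithin_le (f := f) (f' := g) (s := Ici 0)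
    (x := s) (y := t) (C := D) (fun x hx => hf x hx) (fun x hx => hg x hx) (convex_Ici 0) hs ht
  rwa [Real.norm_eq_abs] at this

theorem taylor {f g : ℝ → E3} {M : ℝ} (hM : 0 ≤ M)
    (hf : ∀ t, 0 ≤ t → HasDerivWithinAt f (g t) (Ici 0) t)
    (hg : ∀ s t, 0 ≤ s → 0 ≤ t → ‖g t - g s‖ ≤ M * |t - s|) {s t : ℝ} (hs : 0 ≤ s)
    (ht : 0 ≤ t) : ‖f t - f s - (t - s) • g s‖ ≤ M * |t - s| ^ 2 := by
  have hsub : uIcc s t ⊆ Ici 0 := fun x hx => by
    rw [mem_uIcc] at hx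
    rcases hx with hx | hx
    · exact hs.trans hx.1
    · exact ht.trans hx.1
  have h1 : ∀ x ∈ uIcc s t, HasDerivWithinAt (fun τ => f τ - τ • g s) (g x - g s)
      (uIcc s t) x := fun x hx => by
    have h2 : HasDerivWithinAt (fun τ : ℝ => τ • g s) (g s) (uIcc s t) x := by
      have := (hasDerivWithinAt_id x (uIcc s t)).smul_const (g s)
      simpa using this
    exact ((hf x (hsub hx)).mono hsub).sub h2
  have := Convex.norm_image_sub_le_of_norm_hasDerivWithin_le (C := M * |t - s|)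
    (x := s) (y := t) h1 (fun x hx => ?_) (convex_uIcc s t) left_mem_uIcc right_mem_uIcc
  · rw [Real.norm_eq_abs] at this
    calc _ = ‖(f t - t • g s) - (f s - s • g s)‖ := by rw [sub_smul]; congr 1; abel
      _ ≤ _ := this
      _ = _ := by ring
  · refine (hg s x hs (hsub hx)).trans ?_
    exact mul_le_mul_of_nonneg_left (abs_sub_left_of_mem_uIcc hx) hM

/-! ## limits -/

theorem lim_exists {u : ℕ → E3} {C : ℝ} (h : ∀ n, ‖u n‖ ≤ C) :
    ∃ x, Tendsto u (hyperfilter ℕ : Filter ℕ) (𝓝 x) := by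
  obtain ⟨x, -, hx⟩ := (isCompact_closedBall (0 : E3) C).ultrafilter_le_nhds
    ((hyperfilter ℕ).map u) (by
      rw [le_principal_iff]
      exact Filter.Eventually.of_forall (f := (hyperfilter ℕ : Filter ℕ))
        fun n => by rw [mem_closedBall_zero_iff]; exact h n)
  exact ⟨x, hx⟩

theorem dt_cont (w : E3) : Continuous fun v : E3 => dt v w := by
  unfold dt
  fun_prop

theorem cj_cont : Continuous cj := by
  rw [Metric.continuous_iff]
  intro b ε hε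
  refine ⟨ε, hε, fun a ha => ?_⟩
  rw [dist_eq_norm] at ha ⊢
  rwa [← cj_sub, norm_cj]

theorem nl_tendsto (hs : Summable fun k : K3 => ((1 + nm k) ^ 4)⁻¹) {U : Filter ℕ}
    {x : ℕ → K3 → E3} {y : K3 → E3} {A : ℝ} (hx : ∀ n l, wt l ^ 4 * ‖x n l‖ ≤ A)
    (hxy : ∀ l, Tendsto (fun n => x n l) U (𝓝 (y l))) (k : K3) :
    Tendsto (fun n => nl (x n) k) U (𝓝 (nl y k)) := by
  have hx1 : ∀ n l, wt l ^ 1 * ‖x n l‖ ≤ A := fun n l => (mul_le_mul_of_nonneg_right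
        (pow_le_pow_right₀ (one_le_wt l) (by norm_num)) (norm_nonneg _)).trans (hx n l)
  refine tendsto_tsum_of_dominated_convergence (hs.mul_left (A * A)) (fun l => ?_)
    (Filter.Eventually.of_forall fun n l => ?_)
  · refine Tendsto.smul (tendsto_const_nhds.mul ?_) (hxy _)
    exact ((dt_cont _).tendsto _).comp (hxy l)
  · have := tm_le (m := 0) (hx n) (hx1 n) k l
    rwa [pow_zero, one_mul] at this

theorem lim (hD : S_DEC) (hL : S_LAT) : S_LIM := by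
  obtain ⟨-, -, -, -, hs⟩ := hL
  intro α ν Λ a₀ hν hΛ ha₀ L b hLn hb hb0 hbb
  -- bounds with weights
  have hw : ∀ m : ℕ, ∃ C : ℝ, ∀ n t, 0 ≤ t → ∀ k, wt k ^ m * ‖b n t k‖ ≤ C := by
    intro m
    obtain ⟨C0, h0⟩ := hbb 0
    obtain ⟨C1, h1⟩ := hbb m
    refine ⟨2 ^ m * (C0 + C1), fun n t ht k => ?_⟩
    have h2 : wt k ^ m ≤ 2 ^ m * (nm k ^ 0 + nm k ^ m) := by
      have hn := nm_nonneg k
      unfold wt
      rw [pow_zero]
      rcases le_total 1 (nm k) with h | h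
      · calc (1 + nm k) ^ m ≤ (2 * nm k) ^ m := by gcongr; linarith
          _ = 2 ^ m * nm k ^ m := mul_pow _ _ _
          _ ≤ 2 ^ m * (1 + nm k ^ m) := by gcongr; linarith
      · calc (1 + nm k) ^ m ≤ 2 ^ m := by gcongr; linarith
          _ ≤ 2 ^ m * (1 + nm k ^ m) := by
            refine le_mul_of_one_le_right (by positivity) ?_
            have := pow_nonneg hn m
            linarith
    calc _ ≤ (2 ^ m * (nm k ^ 0 + nm k ^ m)) * ‖b n t k‖ := by gcongr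
      _ = 2 ^ m * (nm k ^ 0 * ‖b n t k‖ + nm k ^ m * ‖b n t k‖) := by ring
      _ ≤ 2 ^ m * (C0 + C1) := by
        gcongr
        · exact h0 n t ht k
        · exact h1 n t ht k
  choose C hC using hw
  have hC0 : ∀ m, 0 ≤ C m := fun m =>
    (mul_nonneg (pow_nonneg (wt_pos 0).le _) (norm_nonneg _)).trans (hC m 0 0 le_rfl 0)
  have hLM : ∀ n, Modes (L n) := fun n => {
    zero := fun s h => hΛ.zero s ((hLn n s 0).1 h).1
    neg := fun s k h => by
      rw [hLn] at h ⊢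
      rw [nm_neg]
      exact ⟨hΛ.neg s k h.1, h.2⟩ }
  have hdec : ∀ k, ∀ᶠ n in atTop, ∀ v, dec (L n) k v = dec Λ k v := by
    intro k
    obtain ⟨N, hN⟩ := exists_nat_ge (nm k)
    filter_upwards [eventually_ge_atTop N] with n hn v
    unfold dec
    refine Finset.sum_congr rfl fun s _ => ?_
    have h1 : k ∈ L n s ↔ k ∈ Λ s := by
      rw [hLn]
      refine ⟨fun h => h.1, fun h => ⟨h, hN.trans ?_⟩⟩
      exact_mod_cast hn
    by_cases h2 : k ∈ Λ s
    · rw [if_pos h2, if_pos (h1.2 h2)]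
    · rw [if_neg h2, if_neg (fun h => h2 (h1.1 h))]
  -- Lipschitz bounds
  obtain ⟨D, hD0, hDD⟩ := rh_le hD hs α ν C 4
  have hder : ∀ n k t, 0 ≤ t → HasDerivWithinAt (fun τ => b n τ k)
      (rh α ν (L n) (b n t) k) (Ici 0) t := fun n k t ht => (hb n).eqn t ht k
  have hlip : ∀ n s t, 0 ≤ s → 0 ≤ t → ∀ k, wt k ^ 4 * ‖b n t k - b n s k‖ ≤ D * |t - s| := by
    intro n s t h1 h2 k
    have hk := wt_pos k
    have h3 := lip (D := D * (wt k ^ 4)⁻¹) (hder n k) (fun t ht => by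
      have := hDD (L n) (hLM n) (b n t) (fun m l => hC m n t ht l) k
      calc ‖rh α ν (L n) (b n t) k‖ = (wt k ^ 4 * ‖rh α ν (L n) (b n t) k‖) * (wt k ^ 4)⁻¹ := by
            field_simp
        _ ≤ _ := by gcongr) h1 h2
    calc _ ≤ wt k ^ 4 * (D * (wt k ^ 4)⁻¹ * |t - s|) := by gcongr
      _ = _ := by field_simp
  have htay : ∀ k, ∃ M : ℝ, 0 ≤ M ∧ ∀ n s t, 0 ≤ s → 0 ≤ t →
      ‖b n t k - b n s k - (t - s) • rh α ν (L n) (b n s) k‖ ≤ M * |t - s| ^ 2 := by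
    intro k
    obtain ⟨G, hG, hGG⟩ := rh_sub hD hs α ν k
    refine ⟨G * ((1 + C 4) * D), by have := hC0 4; positivity, fun n s t h1 h2 => ?_⟩
    refine taylor (by have := hC0 4; positivity) (hder n k) (fun s t h3 h4 => ?_) h1 h2
    refine (hGG (L n) (hLM n) (C 4) (D * |t - s|) _ _ (fun l => hC 4 n t h4 l)
      (fun l => hC 4 n s h3 l) (fun l => hlip n s t h3 h4 l)).trans (le_of_eq ?_)
    ring
  -- the limit
  obtain ⟨U, hU⟩ : ∃ U : Filter ℕ, U = (hyperfilter ℕ : Filter ℕ) := ⟨_, rfl⟩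
  have hUt : U ≤ atTop := hU ▸ Nat.hyperfilter_le_atTop
  have hUn : U.NeBot := by rw [hU]; infer_instance
  have hlim : ∀ t k, ∃ x, Tendsto (fun n => b n (max t 0) k) U (𝓝 x) := fun t k => by
    rw [hU]
    refine lim_exists (C := C 0) fun n => ?_
    have := hC 0 n (max t 0) (le_max_right _ _) k
    rwa [pow_zero, one_mul] at this
  choose a ha using hlim
  have hat : ∀ t, 0 ≤ t → ∀ k, Tendsto (fun n => b n t k) U (𝓝 (a t k)) := fun t ht k => by
    have := ha t k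
    rwa [max_eq_left ht] at this
  have habd : ∀ m : ℕ, ∃ C : ℝ, ∀ t, 0 ≤ t → ∀ k, nm k ^ m * ‖a t k‖ ≤ C := by
    intro m
    obtain ⟨B, hB⟩ := hbb m
    refine ⟨B, fun t ht k => ?_⟩
    exact le_of_tendsto (tendsto_const_nhds.mul (hat t ht k).norm)
      (Filter.Eventually.of_forall fun n => hB n t ht k)
  have hrh : ∀ t, 0 ≤ t → ∀ k, Tendsto (fun n => rh α ν (L n) (b n t) k) U
      (𝓝 (rh α ν Λ (a t) k)) := by
    intro t ht k
    have h1 : Tendsto (fun n => rh α ν Λ (b n t) k) U (𝓝 (rh α ν Λ (a t) k)) := by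
      unfold rh
      refine Tendsto.sub ((tendsto_const_nhds.smul (hat t ht k)).neg) ?_
      exact ((dec_cont hD hΛ k).tendsto _).comp
        (nl_tendsto hs (fun n l => hC 4 n t ht l) (fun l => hat t ht l) k)
    refine h1.congr' ?_
    filter_upwards [hUt (hdec k)] with n hn
    unfold rh
    rw [hn]
  have htay' : ∀ k, ∃ M : ℝ, 0 ≤ M ∧ ∀ s t, 0 ≤ s → 0 ≤ t →
      ‖a t k - a s k - (t - s) • rh α ν Λ (a s) k‖ ≤ M * |t - s| ^ 2 := by
    intro k
    obtain ⟨M, hM, hMM⟩ := htay k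
    refine ⟨M, hM, fun s t h1 h2 => ?_⟩
    exact le_of_tendsto (((hat t h2 k).sub (hat s h1 k)).sub
      (tendsto_const_nhds.smul (hrh s h1 k))).norm
      (Filter.Eventually.of_forall fun n => hMM n s t h1 h2)
  refine ⟨a, ⟨fun t ht => ⟨fun k => ?_, fun k => ?_⟩, fun T m => ?_, fun t ht k => ?_⟩, ?_, habd⟩
  · have h1 := hat t ht (-k)
    have h2 : (fun n => b n t (-k)) = fun n => cj (b n t k) :=
      funext fun n => ((hb n).adm t ht).real k
    rw [h2] at h1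
    exact tendsto_nhds_unique h1 ((cj_cont.tendsto _).comp (hat t ht k))
  · have h1 := ((dec_cont hD hΛ k).tendsto _).comp (hat t ht k)
    refine tendsto_nhds_unique h1 ((hat t ht k).congr' ?_)
    filter_upwards [hUt (hdec k)] with n hn
    show b n t k = dec Λ k (b n t k)
    rw [← hn]
    exact (((hb n).adm t ht).mem k).symm
  · obtain ⟨B, hB⟩ := habd m
    exact ⟨B, fun t ht k => hB t ht.1 k⟩
  · obtain ⟨M, hM, hMM⟩ := htay' k
    rw [hasDerivWithinAt_iff_isLittleO]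
    have h1 : (fun τ => a τ k - a t k - (τ - t) • rh α ν Λ (a t) k) =O[𝓝[Ici 0] t]
        fun τ => ‖τ - t‖ ^ 2 := by
      refine Asymptotics.IsBigO.of_bound M ?_
      filter_upwards [self_mem_nhdsWithin] with τ hτ
      rw [norm_pow, norm_norm, Real.norm_eq_abs]
      exact hMM t τ ht hτ
    exact h1.trans_isLittleO ((Asymptotics.isLittleO_pow_sub_sub t
      (by norm_num : 1 < 2)).mono nhdsWithin_le_nhds)
  · funext k
    refine tendsto_nhds_unique (hat 0 le_rfl k) ?_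
    refine tendsto_const_nhds.congr' ?_
    filter_upwards [hUt (hb0 k)] with n hn
    exact hn.symm

end

end Pool.Agent.W338.HD
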